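import Pool.Agent.J4H45.GT.Stm

set_option autoImplicit false

/-! # Project GT: heavy columns (HVC), heavy columns or rows (HVY) -/

namespace Pool.Agent.J4H94.GT

open Finset Pool.Agent.N631.SX Pool.Agent.J4H45.GT

/-- a subset with a prescribed sum up to `1` -/
theorem greedy {ι : Type} [DecidableEq ι] (f : ι → ℝ) (_h0 : ∀ i, 0 ≤ f i) (h1 : ∀ i, f i ≤ 1)
    (K : ℝ) (hK : 0 ≤ K) (s : Finset ι) (hs : K ≤ ∑ i ∈ s, f i) :
    ∃ J ⊆ s, K ≤ ∑ i ∈ J, f i ∧ ∑ i ∈ J, f i ≤ K + 1 := by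
  induction s using Finset.induction_on with
  | empty => exact ⟨∅, subset_rfl, hs, by rw [sum_empty]; linarith⟩
  | insert a s ha ih =>
    by_cases h : K ≤ ∑ i ∈ s, f i
    · obtain ⟨J, hJ, h2⟩ := ih h
      exact ⟨J, hJ.trans (subset_insert _ _), h2⟩
    · refine ⟨insert a s, subset_rfl, hs, ?_⟩
      rw [sum_insert ha]
      have := h1 a
      push Not at h
      linarith

theorem card_U (k q : ℕ) : (Fintype.card (U k q) : ℝ) =
    (Fintype.card (Fin k → Fin q) : ℝ) * (Fintype.card (Fin k → Option (Fin q) → Bool) : ℝ) := by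
  have e : U k q ≃ (Fin k → Option (Fin q) → Bool) × (Fin k → Fin q) :=
    Equiv.arrowProdEquivProdArrow _ _ _
  rw [Fintype.card_congr e, Fintype.card_prod]
  push_cast
  ring

theorem sum_U {k q : ℕ} (f : U k q → ℂ) :
    ∑ u, f u = ∑ a : Fin k → Fin q, ∑ x : Fin k → Option (Fin q) → Bool, f (fun i => (x i, a i)) := by
  rw [← Equiv.sum_comp (Equiv.arrowProdEquivProdArrow (Fin k) (fun _ => Option (Fin q) → Bool)
    (fun _ => Fin q)).symm f, Fintype.sum_prod_type, sum_comm]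
  rfl

theorem t_HVC : S_HV1 → S_HV2 → S_HVC := by
  intro h1 h2 k q i0 j0 ζ K hq hζ hK hKq hmass F G hF hG
  obtain ⟨J, hJ, hJ1, hJ2⟩ := greedy (fun j => min 1 (∑ i, ‖1 - ζ i j‖ ^ 2))
    (fun j => le_min zero_le_one (sum_nonneg fun i _ => by positivity)) (fun j => min_le_left _ _)
    K hK _ hmass
  have hj0 : j0 ∉ J := fun h => (mem_erase.1 (hJ h)).1 rfl
  set X : ℝ := (Fintype.card (Fin k → Option (Fin q) → Bool) : ℝ) with hX
  set M : ℝ := ∑ j ∈ J, min 1 (∑ i, ‖1 - ζ i j‖ ^ 2) with hM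
  have key : ∀ a : Fin k → Fin q, ‖∑ x : Fin k → Option (Fin q) → Bool, ∑ w : U k q,
      F (fun i => (x i, a i)) * G w * kerG i0 j0 ζ (fun i => (x i, a i)) w‖ ≤
      (Fintype.card (U k q) : ℝ) * X * Real.exp (-(K / 128)) := by
    intro a
    have h3 := h1 k q i0 j0 ζ a J hq hζ hj0 (fun x => F (fun i => (x i, a i))) G
      (fun x => hF _) hG
    have h4 := h2 k q ζ (fun i => if i = i0 then none else some (a i)) J hq hζ
      (by rw [← hM]; nlinarith)
    rw [← hM, ← hX] at h4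
    have h5 : Real.exp (-(M / 64)) ≤ Real.exp (-(K / 128)) ^ 2 := by
      rw [← Real.exp_nat_mul]
      apply Real.exp_le_exp.2
      push_cast
      linarith
    have h6 : ‖∑ x : Fin k → Option (Fin q) → Bool, ∑ w : U k q,
        F (fun i => (x i, a i)) * G w * kerG i0 j0 ζ (fun i => (x i, a i)) w‖ ^ 2 ≤
        ((Fintype.card (U k q) : ℝ) * X * Real.exp (-(K / 128))) ^ 2 := by
      refine h3.trans ?_
      calc _ ≤ (Fintype.card (U k q) : ℝ) ^ 2 * (Real.exp (-(M / 64)) * X ^ 2) :=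
            mul_le_mul_of_nonneg_left h4 (by positivity)
        _ ≤ (Fintype.card (U k q) : ℝ) ^ 2 * (Real.exp (-(K / 128)) ^ 2 * X ^ 2) := by gcongr
        _ = _ := by ring
    exact le_of_sq_le_sq h6 (by positivity)
  rw [sum_U]
  calc _ ≤ ∑ a : Fin k → Fin q, ‖∑ x : Fin k → Option (Fin q) → Bool, ∑ w : U k q,
        F (fun i => (x i, a i)) * G w * kerG i0 j0 ζ (fun i => (x i, a i)) w‖ := norm_sum_le _ _
    _ ≤ ∑ _a : Fin k → Fin q, (Fintype.card (U k q) : ℝ) * X * Real.exp (-(K / 128)) :=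
        sum_le_sum fun a _ => key a
    _ = (Fintype.card (Fin k → Fin q) : ℝ) * ((Fintype.card (U k q) : ℝ) * X *
        Real.exp (-(K / 128))) := by rw [sum_const, nsmul_eq_mul, card_univ]
    _ = _ := by
        have h7 := card_U k q
        rw [← hX] at h7
        rw [pow_two]
        nth_rw 3 [h7]
        ring

theorem kerG_swap {k q : ℕ} (i0 j0 : Fin k) (ζ : Fin k → Fin k → ℂ) (u w : U k q) :
    kerG i0 j0 ζ u w = kerG j0 i0 (fun i j => ζ j i) w u := by
  unfold kerG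
  rw [prod_comm]
  refine prod_congr rfl fun j _ => prod_congr rfl fun i _ => ?_
  rw [zz_swap]

theorem t_HVY : S_HVC → S_HVY := by
  intro h k q i0 j0 ζ K hq hζ hK hKq hmass F G hF hG
  rcases hmass with hm | hm
  · exact h k q i0 j0 ζ K hq hζ hK hKq hm F G hF hG
  · have h1 := h k q j0 i0 (fun i j => ζ j i) K hq (fun i j => hζ j i) hK hKq hm G F hG hF
    rw [sum_comm] at h1
    convert h1 using 5 with u _ w _
    · ring
    · exact kerG_swap i0 j0 ζ u w

end Pool.Agent.J4H94.GT
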